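import Pool.Agent.Helper15.T4.Stmts

set_option autoImplicit false

open Finset MeasureTheory Filter Topology

namespace Pool.Agent.Helper4.T4

open Pool.Agent.Helper15.T4

/-- row sums -/
def Rw (h : L1 → ℝ) (d : Fin 4) : ℝ := h (d, 0) + h (d, 1) + h (d, 2)

theorem m1l (a : L1) (h : L1 → ℝ) :
    m1.l a h = ((Real.sqrt 2 / 3 * Rw h a.1 : ℝ) : ℂ) +
      ((h a - Rw h a.1 / 3 : ℝ) : ℂ) * Complex.I := by
  have h1 : m1.l a h = ∑ i1 : Fin 4, ∑ i2 : Fin 3, (if a.1 = i1 then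
      (((Real.sqrt 2 : ℂ) - Complex.I) / 3 + (if a.2 = i2 then Complex.I else 0)) * (h (i1, i2) : ℂ)
      else 0) := by
    unfold Mdl.l
    rw [Fintype.sum_prod_type]
    refine Finset.sum_congr rfl fun i1 _ => Finset.sum_congr rfl fun i2 _ => ?_
    change S1 a (i1, i2) * _ = _
    unfold S1
    by_cases h2 : a.1 = i1
    · simp only [h2, if_true]
    · simp only [h2, if_false, zero_mul]
  rw [h1]
  have h2 : ∀ i1 : Fin 4, (∑ i2 : Fin 3, (if a.1 = i1 then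
      (((Real.sqrt 2 : ℂ) - Complex.I) / 3 + (if a.2 = i2 then Complex.I else 0)) * (h (i1, i2) : ℂ)
      else 0)) = if a.1 = i1 then (∑ i2 : Fin 3,
      (((Real.sqrt 2 : ℂ) - Complex.I) / 3 + (if a.2 = i2 then Complex.I else 0)) *
        (h (i1, i2) : ℂ)) else 0 := by
    intro i1
    split_ifs <;> simp
  simp only [h2, Finset.sum_ite_eq, Finset.mem_univ, if_true]
  obtain ⟨d, j⟩ := a
  simp only [Fin.sum_univ_three, Rw]
  fin_cases j
  · simp
    ring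
  · simp
    ring
  · simp
    ring

/-- the pairs of labels of one vertex -/
def Wn (b c : L1) : ℕ := if b.1 ≠ c.1 ∧ vc b = vc c then 1 else 0

theorem sumn : ∀ b c : L1, (∑ a : L1, (if (a.1 ≠ b.1 ∧ a.1 ≠ c.1 ∧ b.1 ≠ c.1 ∧ vc a = vc b ∧
    vc a = vc c) then 1 else 0 : ℕ)) = Wn b c := by decide +kernel

theorem sumw (b c : L1) : ∑ a : L1, (w1 a b c : ℂ) = (Wn b c : ℂ) := by
  rw [← sumn b c]
  push_cast
  refine Finset.sum_congr rfl fun a _ => ?_
  unfold w1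
  split_ifs <;> simp

theorem quad (y : L1 → ℂ) : ∑ b : L1, ∑ c : L1, (Wn b c : ℂ) * y b * y c =
    2 * (y (1, 0) * y (2, 0) + y (1, 0) * y (3, 0) + y (2, 0) * y (3, 0)) +
    2 * (y (0, 0) * y (2, 1) + y (0, 0) * y (3, 1) + y (2, 1) * y (3, 1)) +
    2 * (y (0, 1) * y (1, 1) + y (0, 1) * y (3, 2) + y (1, 1) * y (3, 2)) +
    2 * (y (0, 2) * y (1, 2) + y (0, 2) * y (2, 2) + y (1, 2) * y (2, 2)) := by
  have key : ∀ b : L1, (∑ c : L1, (Wn b c : ℂ) * y b * y c) =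
      ∑ c : L1, (if b.1 ≠ c.1 ∧ vc b = vc c then y b * y c else 0) := by
    intro b
    refine Finset.sum_congr rfl fun c _ => ?_
    unfold Wn
    split_ifs <;> simp
  simp only [key]
  simp only [Fintype.sum_prod_type, Fin.sum_univ_four, Fin.sum_univ_three, vc]
  simp [Fin.ext_iff, Fin.succAbove, Fin.lt_def]
  ring

theorem POS1 : ST_POS1 := by
  refine ⟨3 / 2, by norm_num, fun h => ?_⟩
  have hs2 : Real.sqrt 2 ^ 2 = 2 := Real.sq_sqrt (by norm_num)
  have hs12 : Real.sqrt 12 ^ 2 = 12 := Real.sq_sqrt (by norm_num)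
  have hs12' : 0 < Real.sqrt 12 := Real.sqrt_pos.2 (by norm_num)
  have hq0 : 0 < q1 := Real.sqrt_pos.2 (by norm_num)
  -- the value at the peak
  have hl : ∀ a : L1, m1.l a u1 = ((Real.sqrt 2 / Real.sqrt 12 : ℝ) : ℂ) := by
    intro a
    rw [m1l]
    have e1 : Rw u1 a.1 = 3 / Real.sqrt 12 := by
      unfold Rw u1; ring
    have e2 : u1 a - Rw u1 a.1 / 3 = 0 := by
      rw [e1]; unfold u1; ring
    rw [e2, e1]
    simp only [Complex.ofReal_zero, zero_mul, add_zero]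
    congr 1
    ring
  have hq : Real.sqrt 2 / Real.sqrt 12 = q1 / 4 := by
    have h1 : (Real.sqrt 2 / Real.sqrt 12) ^ 2 = (q1 / 4) ^ 2 := by
      rw [div_pow, div_pow, hs2, hs12]
      unfold q1
      rw [Real.sq_sqrt (by norm_num)]
      norm_num
    exact (pow_left_inj₀ (by positivity) (by positivity) two_ne_zero).1 h1
  have hT : m1.T u1 h h = ((q1 / 4 : ℝ) : ℂ) * ∑ b : L1, ∑ c : L1,
      (Wn b c : ℂ) * m1.l b h * m1.l c h := by
    unfold Mdl.T
    simp only [hl, hq]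
    rw [Finset.sum_comm]
    rw [Finset.mul_sum]
    refine Finset.sum_congr rfl fun b _ => ?_
    rw [Finset.sum_comm, Finset.mul_sum]
    refine Finset.sum_congr rfl fun c _ => ?_
    rw [← sumw b c, Finset.sum_mul, Finset.sum_mul, Finset.mul_sum]
    refine Finset.sum_congr rfl fun a _ => ?_
    change (w1 a b c : ℂ) * _ * _ * _ = _
    ring
  have hq1 : (q1 : ℂ) ≠ 0 := by
    exact_mod_cast hq0.ne'
  have hQ : QT m1.T u1 q1 h = 3 * (nsq h : ℂ) - (3 / 2) * (∑ b : L1, ∑ c : L1,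
      (Wn b c : ℂ) * m1.l b h * m1.l c h) + 9 * ((∑ i, u1 i * h i : ℝ) : ℂ) ^ 2 := by
    unfold QT
    rw [hT]
    push_cast
    field_simp
    ring
  have hu : (∑ i, u1 i * h i : ℝ) ^ 2 = (∑ i, h i) ^ 2 / 12 := by
    unfold u1
    rw [← Finset.mul_sum, mul_pow, div_pow, hs12]
    ring
  rw [hQ, quad]
  simp only [m1l]
  have hre : ∀ z : ℝ, ((9 : ℂ) * (z : ℂ) ^ 2).re = 9 * z ^ 2 := by
    intro z
    have : (9 : ℂ) * (z : ℂ) ^ 2 = ((9 * z ^ 2 : ℝ) : ℂ) := by push_cast; rfl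
    rw [this, Complex.ofReal_re]
  have hre2 : ∀ z : ℝ, ((3 : ℂ) * (z : ℂ)).re = 3 * z := by
    intro z
    simp
  rw [Complex.add_re, Complex.sub_re, hre, hu, hre2]
  simp only [Complex.add_re, Complex.mul_re, Complex.mul_im, Complex.add_im, Complex.ofReal_re,
    Complex.ofReal_im, Complex.I_re, Complex.I_im, mul_zero, mul_one, add_zero,
    zero_add, sub_self]
  have hn : nsq h = (h (0, 0) ^ 2 + h (0, 1) ^ 2 + h (0, 2) ^ 2) +
      (h (1, 0) ^ 2 + h (1, 1) ^ 2 + h (1, 2) ^ 2) + (h (2, 0) ^ 2 + h (2, 1) ^ 2 + h (2, 2) ^ 2) +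
      (h (3, 0) ^ 2 + h (3, 1) ^ 2 + h (3, 2) ^ 2) := by
    unfold nsq
    simp only [Fintype.sum_prod_type, Fin.sum_univ_four, Fin.sum_univ_three]
  have ht : (∑ i, h i) = Rw h 0 + Rw h 1 + Rw h 2 + Rw h 3 := by
    simp only [Fintype.sum_prod_type, Fin.sum_univ_four, Fin.sum_univ_three, Rw]
  rw [hn, ht]
  have n2r : (2 : ℂ).re = 2 := rfl
  have n2i : (2 : ℂ).im = 0 := rfl
  have n3r : (3 / 2 : ℂ).re = 3 / 2 := by norm_num
  have n3i : (3 / 2 : ℂ).im = 0 := by norm_num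
  simp only [n2r, n2i, n3r, n3i, zero_mul, sub_zero, add_zero, Rw]
  generalize h (0, 0) = x00
  generalize h (0, 1) = x01
  generalize h (0, 2) = x02
  generalize h (1, 0) = x10
  generalize h (1, 1) = x11
  generalize h (1, 2) = x12
  generalize h (2, 0) = x20
  generalize h (2, 1) = x21
  generalize h (2, 2) = x22
  generalize h (3, 0) = x30
  generalize h (3, 1) = x31
  generalize h (3, 2) = x32
  generalize Real.sqrt 2 = s at hs2
  have k : ∀ T R C : ℝ, 0 ≤ 3 / 2 * (C - T / 4 + (R - T / 4) / 3) ^ 2 + 7 / 6 * (R - T / 4) ^ 2 :=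
    fun T R C => by positivity
  have k0 := k ((x00 + x01 + x02) + (x10 + x11 + x12) + (x20 + x21 + x22) + (x30 + x31 + x32)) (x00 + x01 + x02) (x10 + x20 + x30)
  have k1 := k ((x00 + x01 + x02) + (x10 + x11 + x12) + (x20 + x21 + x22) + (x30 + x31 + x32)) (x10 + x11 + x12) (x00 + x21 + x31)
  have k2 := k ((x00 + x01 + x02) + (x10 + x11 + x12) + (x20 + x21 + x22) + (x30 + x31 + x32)) (x20 + x21 + x22) (x01 + x11 + x32)
  have k3 := k ((x00 + x01 + x02) + (x10 + x11 + x12) + (x20 + x21 + x22) + (x30 + x31 + x32)) (x30 + x31 + x32) (x02 + x12 + x22)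
  have kt : 0 ≤ 3 / 8 * ((x00 + x01 + x02) + (x10 + x11 + x12) + (x20 + x21 + x22) + (x30 + x31 + x32)) ^ 2 := by positivity
  linear_combination (2 / 3 * ((x00 + x01 + x02) * (x10 + x11 + x12) + (x00 + x01 + x02) * (x20 + x21 + x22) + (x00 + x01 + x02) * (x30 + x31 + x32) + (x10 + x11 + x12) * (x20 + x21 + x22) + (x10 + x11 + x12) * (x30 + x31 + x32) + (x20 + x21 + x22) * (x30 + x31 + x32))) * hs2 + k0 + k1 + k2 + k3 + kt

end Pool.Agent.Helper4.T4
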